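import Pool.Agent.Q189.GB4

/-!
# MP_0ffb5f_gt: Gaussian measure bounds for vector balancing beyond symmetric bodies
-/

set_option autoImplicit false

open MeasureTheory ProbabilityTheory Set
open scoped Pointwise

namespace Pool.Agent.Results.MP_0ffb5f_gt.CentredBodiesBalance

open Q189.GBDefs Q189.GB

/-- **Theorem.** There is a non-increasing function `g : (0,1] → [0,∞)` such that for every `n ≥ 1`
and every compact convex set `V` in `ℝ^n` with `0` in its interior and with Gaussian barycentre at
the origin, every `n`-tuple of vectors of the Euclidean unit ball has a signed sum in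
`g (γ(V)) V`; in particular `β(B, V) ≤ g (γ(V))`. -/
theorem result : ∃ g : ℝ → ℝ, AntitoneOn g (Ioc 0 1) ∧ (∀ p ∈ Ioc (0 : ℝ) 1, 0 ≤ g p) ∧
    ∀ n : ℕ, 1 ≤ n → ∀ V : Set (EuclideanSpace ℝ (Fin n)), IsCompact V → Convex ℝ V →
      0 ∈ interior V → ∫ x in V, x ∂(stdGaussian (EuclideanSpace ℝ (Fin n))) = 0 →
      Balances V (g (gauss V)) ∧ beta V ≤ g (gauss V) := by
  refine ⟨bd, ?_, fun p hp => (bd_pos hp.1).le, ?_⟩
  · intro p hp q hq hpq
    exact bd_anti hp.1 hpq
  · intro n hn V hV hc h0 hb
    have hpos : 0 < (stdGaussian (EuclideanSpace ℝ (Fin n)) V).toReal :=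
      ENNReal.toReal_pos (gauss_pos_of_interior ⟨0, h0⟩).ne' (measure_ne_top _ _)
    have hint : IntegrableOn (fun x : EuclideanSpace ℝ (Fin n) => x) V
        (stdGaussian (EuclideanSpace ℝ (Fin n))) :=
      continuous_id.continuousOn.integrableOn_compact hV
    have h := main_balance hV.isClosed hc hpos 0 (by
      intro j
      have h1 := (EuclideanSpace.proj (𝕜 := ℝ) j :
        EuclideanSpace ℝ (Fin n) →L[ℝ] ℝ).integral_comp_comm hint
      rw [hb, map_zero] at h1
      simp only [PiLp.zero_apply, mul_zero]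
      exact h1.symm)
    rw [neg_zero, zero_vadd] at h
    exact ⟨h.1, beta_le (bd_pos hpos) h.1⟩

end Pool.Agent.Results.MP_0ffb5f_gt.CentredBodiesBalance
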